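import Pool.Agent.Q183.SMG.Len

set_option autoImplicit false

/-!
# The standard map: exponential growth of the boundary of every set

Let `S_a (x, y) = (2x - y + a sin 2πx, x)` on the torus, with `|a| ≥ 256` (NO parameter is excluded). The
sets `A` below are arbitrary: they are not assumed invariant, nor measurable. For `n, m ≥ 1`, with the
error `err n = 3 n / |a| + 4 / √|a|` and the scale `s_n = |a| ^ (-n / 4)`:

* either the `s_n`-neighbourhood of `∂A` has area at least `min (|A|, |Aᶜ|) - err n`, or the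
  `s_m`-neighbourhood of the boundary of `S_a^(n + m) A` has area at least `1 - err m`;
* if the length of `∂A` is less than `(min (|A|, |Aᶜ|) - err n) |a| ^ (n / 4)` for one `n`, then the
  boundary of `S_a^(n + m) A` has length at least `(1 - err m) |a| ^ (m / 4)`, for all `m`;
* of the boundaries of two images `S_a^k A`, `S_a^(k + N) A` at a distance `N = N (a, η)`, one is longer
  than about `|a| ^ (η |a| / 12)`, where `η` is the area of `A` (or of its complement);
* two sets with not too wild boundaries meet under the map: `S_a^(n + m) B ∩ C ≠ ∅`.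

For an invariant set the images are all the same and this becomes the starting theorem.
-/

open Real MeasureTheory
open scoped ENNReal

namespace Pool.Agent.Results.MP_9ee088_an.BoundaryGrowth

/-- The torus `ℝ² / ℤ²`, with its Lebesgue measure `volume` and the sup distance. -/
abbrev Torus := UnitAddCircle × UnitAddCircle

/-- `T` is the standard map `S_a` of the torus. -/
def IsStandardMap (a : ℝ) (T : Torus → Torus) : Prop :=
  ∀ x y : ℝ, T ((x : UnitAddCircle), (y : UnitAddCircle)) =
    (((2 * x - y + a * sin (2 * π * x) : ℝ) : UnitAddCircle), (x : UnitAddCircle))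

/-- The error `3 n / |a| + 4 / √|a|`. -/
noncomputable def err (a : ℝ) (n : ℕ) : ℝ := 3 * n / |a| + 4 / √|a|

/-- The scale `|a| ^ (-n / 4)`. -/
noncomputable def scale (a : ℝ) (n : ℕ) : ℝ := |a| ^ (-(n : ℝ) / 4)

/-- The length of the boundary of `A` (one-dimensional Hausdorff measure). -/
noncomputable def len (A : Set Torus) : ℝ≥0∞ := Measure.hausdorffMeasure 1 (frontier A)

/-- The area of the neighbourhood of radius `scale a n` of the boundary of `A`. -/
noncomputable def thick (a : ℝ) (n : ℕ) (A : Set Torus) : ℝ≥0∞ :=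
  volume (Metric.cthickening (scale a n) (frontier A))

theorem sqrt_ge {a : ℝ} (ha : 256 ≤ |a|) : 16 ≤ √|a| := by
  apply Real.le_sqrt_of_sq_le
  norm_num
  exact ha

theorem scale_eq {a : ℝ} (ha : 256 ≤ |a|) (n : ℕ) : (1 / √√|a|) ^ n = scale a n := by
  have ha0 : 0 < |a| := by linarith
  have h1 : 1 / √√|a| = |a| ^ (-(1:ℝ) / 4) := by
    rw [Real.sqrt_eq_rpow, Real.sqrt_eq_rpow, ← Real.rpow_mul ha0.le, one_div, ← Real.rpow_neg ha0.le]
    norm_num
  unfold scale
  rw [h1, ← Real.rpow_natCast, ← Real.rpow_mul ha0.le]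
  congr 1
  ring

theorem scale_ge' {a : ℝ} (ha : 256 ≤ |a|) (n : ℕ) :
    4 * ((1 / √√|a|) ^ (n + 1) / 5) ≤ scale a n := by
  have ha0 : 0 < |a| := by linarith
  have h3 : 0 < √√|a| := Real.sqrt_pos.2 (Real.sqrt_pos.2 ha0)
  have h4 : 1 / √√|a| ≤ 1 := by
    rw [div_le_one h3]
    apply Real.le_sqrt_of_sq_le
    have := sqrt_ge ha
    linarith
  rw [pow_succ, scale_eq ha]
  have h5 : 0 ≤ scale a n := by
    unfold scale
    positivity
  have h6 : 0 < 1 / √√|a| := by positivity
  nlinarith

theorem scale_ge {a : ℝ} (ha : 256 ≤ |a|) (n : ℕ) :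
    (1 / √√|a|) ^ (n + 1) / 5 ≤ scale a n := by
  have h := scale_ge' ha n
  have h2 : 0 ≤ (1 / √√|a|) ^ (n + 1) / 5 := by positivity
  linarith

theorem err_ge {a : ℝ} (ha : 256 ≤ |a|) (n : ℕ) :
    3 * n / |a| + 3.71 / √|a| ≤ err a n := by
  unfold err
  have h := sqrt_ge ha
  have h2 : (3.71:ℝ) / √|a| ≤ 4 / √|a| := div_le_div_of_nonneg_right (by norm_num) (by linarith)
  linarith

/-- **Growth of the boundaries of all sets under the standard map, for every `|a| ≥ 256`.** -/
theorem result (a : ℝ) (ha : 256 ≤ |a|) (T : Torus → Torus) (hT : IsStandardMap a T) :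
    -- (1) the alternative
    (∀ (A : Set Torus) (n m : ℕ), 1 ≤ n → 1 ≤ m →
      min (volume A) (volume Aᶜ) ≤ ENNReal.ofReal (err a n) + thick a n A ∨
      1 ≤ ENNReal.ofReal (err a m) + thick a m (T^[n + m] '' A)) ∧
    -- (2) exponential growth of the length of the boundary
    (∀ (A : Set Torus) (n : ℕ), 1 ≤ n →
      ENNReal.ofReal (err a n) + ENNReal.ofReal (scale a n) * len A <
        min (volume A) (volume Aᶜ) →
      ∀ m : ℕ, 1 ≤ m →
        1 ≤ ENNReal.ofReal (err a m) + ENNReal.ofReal (scale a m) * len (T^[n + m] '' A)) ∧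
    -- (3) one of two images has an extremely long boundary
    (∀ η : ℝ, ∃ N : ℕ, ∀ A : Set Torus, ENNReal.ofReal η ≤ volume A → ENNReal.ofReal η ≤ volume Aᶜ →
      ∀ k : ℕ, ENNReal.ofReal (|a| ^ ((η * |a| - 5 * √|a|) / 12)) ≤
        1 + 2 * max (len (T^[k] '' A)) (len (T^[k + N] '' A))) ∧
    -- (4) mixing of sets
    (∀ (B C : Set Torus) (n m : ℕ), 1 ≤ n → 1 ≤ m →
      ENNReal.ofReal (err a n) + thick a n B < volume B →
      ENNReal.ofReal (err a m) + thick a m C < volume C →
      ((T^[n + m] '' B) ∩ C).Nonempty) := by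
  have hTS : T = TH705.SM.S a := TH705.SM.eq_S a T hT
  have hM := sqrt_ge ha
  have haM : |a| = √|a| ^ 2 := (Real.sq_sqrt (abs_nonneg a)).symm
  rw [hTS]
  have hth : ∀ (n : ℕ) (F : Set Torus),
      volume (Y332.SM.hnbd ((1 / √√|a|) ^ (n + 1) / 5) F) ≤ volume (Metric.cthickening (scale a n) F) ∧
      volume (Y332.SM.hnbd ((1 / √√|a|) ^ (n + 1) / 5) (Prod.swap ⁻¹' F)) ≤
        volume (Metric.cthickening (scale a n) F) := by
    intro n F
    have h := Y332.SM.vol_hnbd_thick ((1 / √√|a|) ^ (n + 1) / 5) F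
    have h2 : volume (Metric.cthickening ((1 / √√|a|) ^ (n + 1) / 5) F) ≤
        volume (Metric.cthickening (scale a n) F) :=
      measure_mono (Metric.cthickening_mono (scale_ge ha n) _)
    exact ⟨h.1.trans h2, h.2.trans h2⟩
  have her : ∀ n : ℕ, ENNReal.ofReal (3 * n / |a| + 3.71 / √|a|) ≤ ENNReal.ofReal (err a n) :=
    fun n => ENNReal.ofReal_le_ofReal (err_ge ha n)
  have hln : ∀ (n : ℕ) (F : Set Torus),
      volume (Y332.SM.hnbd ((1 / √√|a|) ^ (n + 1) / 5) F) ≤
        ENNReal.ofReal (scale a n) * Measure.hausdorffMeasure 1 F ∧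
      volume (Y332.SM.hnbd ((1 / √√|a|) ^ (n + 1) / 5) (Prod.swap ⁻¹' F)) ≤
        ENNReal.ofReal (scale a n) * Measure.hausdorffMeasure 1 F := by
    intro n F
    have h := Q183.SMG.nb_len hM n F
    have h2 : ENNReal.ofReal (4 * ((1 / √√|a|) ^ (n + 1) / 5)) * Measure.hausdorffMeasure 1 F ≤
        ENNReal.ofReal (scale a n) * Measure.hausdorffMeasure 1 F :=
      mul_le_mul_left (ENNReal.ofReal_le_ofReal (scale_ge' ha n)) _
    exact ⟨h.1.trans h2, h.2.trans h2⟩
  refine ⟨?_, ?_, ?_, ?_⟩
  · intro A n m hn hm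
    rcases Q183.SMG.alternative hM haM hn hm A with h | h
    · exact Or.inl (h.trans (add_le_add (her n) (hth n _).1))
    · exact Or.inr (h.trans (add_le_add (her m) (hth m _).2))
  · intro A n hn hA m hm
    rcases Q183.SMG.alternative hM haM hn hm A with h | h
    · exact absurd (h.trans (add_le_add (her n) (hln n _).1)) (not_le.2 hA)
    · exact h.trans (add_le_add (her m) (hln m _).2)
  · intro η
    refine ⟨Q183.SMG.tm a (√|a|) η + Q183.SMG.tm a (√|a|) η, ?_⟩
    intro A h1 h2 k
    have hcont : Continuous ((TH705.SM.S a)^[k]) := (TH705.SM.S_cont a).iterate k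
    have hinj : Function.Injective ((TH705.SM.S a)^[k]) := by
      have hl : Function.LeftInverse (TH705.SM.Si a) (TH705.SM.S a) := TH705.SM.Si_S a
      exact hl.injective.iterate k
    have hsurj : Function.Surjective ((TH705.SM.S a)^[k]) := by
      have hl : Function.RightInverse (TH705.SM.Si a) (TH705.SM.S a) := Y332.SM.S_Si a
      exact hl.surjective.iterate k
    have hemb : MeasurableEmbedding ((TH705.SM.S a)^[k]) := hcont.measurableEmbedding hinj
    have hvol : ∀ B : Set Torus, volume ((TH705.SM.S a)^[k] '' B) = volume B := by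
      intro B
      rw [← (TH705.SM.iter_mp a k).measure_preimage_emb hemb, Set.preimage_image_eq _ hinj]
    have h3 : ((TH705.SM.S a)^[k] '' A)ᶜ = (TH705.SM.S a)^[k] '' Aᶜ :=
      (Set.image_compl_eq ⟨hinj, hsurj⟩).symm
    have h4 := Q183.SMG.two_times hM haM (η := η) (B := (TH705.SM.S a)^[k] '' A)
      (by rw [hvol]; exact h1) (by rw [h3, hvol]; exact h2)
    have h5 : (TH705.SM.S a)^[k + (Q183.SMG.tm a (√|a|) η + Q183.SMG.tm a (√|a|) η)] '' A =
        (TH705.SM.S a)^[Q183.SMG.tm a (√|a|) η + Q183.SMG.tm a (√|a|) η] ''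
          ((TH705.SM.S a)^[k] '' A) := by
      rw [Set.image_image]
      apply Set.image_congr'
      intro p
      rw [add_comm k, Function.iterate_add_apply]
    rw [h5]
    exact h4
  · intro B C n m hn hm h1 h2
    obtain ⟨p, hp, hpC⟩ := Q183.SMG.meets hM haM hn hm
      ((add_le_add (her n) (hth n _).1).trans_lt h1) ((add_le_add (her m) (hth m _).2).trans_lt h2)
    exact ⟨_, ⟨p, hp, rfl⟩, hpC⟩

end Pool.Agent.Results.MP_9ee088_an.BoundaryGrowth
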