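import Pool.Agent.TH705.SM.CltI
import Pool.Agent.TH705.SM.CltE
import Pool.Agent.TH705.SM.Corr

set_option autoImplicit false

/-!
# Finite-time mixing, central limit theorem and momentum diffusion of the standard map

`S_a (x, y) = (2x - y + a sin 2πx, x)` on the torus, and its lift `F_a` to the plane.  For EVERY
large parameter (nothing is excluded), up to times `n` small compared with a power of `|a|`, the
standard map has all the statistical properties which the conjecture of Sinai predicts: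

1. decay of correlations: for products `g(x) h(y)` (with `g` continuous, `h` of class `C¹`) the
   correlation at time `n ≥ 3` is at most `C (n + V(h₁) + V(h₂)) / √|a|`, with an absolute constant;
2. the central limit theorem with a rate, for all `C¹` observables, on every horizontal line;
3. convergence in distribution to the normal law (along any parameters and any times for which
   the rate tends to `0`);
4. the momentum `x_n - x_(n-1)` of the lifted map diffuses: its growth in time `n`, divided by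
   `a √n`, is asymptotically Gaussian with the quasilinear variance `1/2`, on every horizontal
   line.
-/

open Real MeasureTheory Filter Topology ProbabilityTheory Function

namespace Pool.Agent.Results.MP_9ee088_an.FiniteTimeStatistics

/-- The torus `ℝ² / ℤ²`, with its Lebesgue measure. -/
abbrev Torus := UnitAddCircle × UnitAddCircle

/-- `T` is the standard map `S_a` of the torus. -/
def IsStandardMap (a : ℝ) (T : Torus → Torus) : Prop :=
  ∀ x y : ℝ, T ((x : UnitAddCircle), (y : UnitAddCircle)) =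
    (((2 * x - y + a * sin (2 * π * x) : ℝ) : UnitAddCircle), (x : UnitAddCircle))

/-- The lift `(x, y) ↦ (2 x - y + a sin 2 π x, x)` of `S_a` to the plane. -/
noncomputable def planeMap (a : ℝ) (p : ℝ × ℝ) : ℝ × ℝ :=
  (2 * p.1 - p.2 + a * sin (2 * π * p.1), p.1)

/-- A function on the circle of class `C¹`. -/
def IsC1 (h : UnitAddCircle → ℝ) : Prop := ContDiff ℝ 1 (fun t : ℝ => h (t : UnitAddCircle))

/-- The total variation `∫ |h'|` of a `C¹` function on the circle. -/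
noncomputable def variation (h : UnitAddCircle → ℝ) : ℝ :=
  ∫ t in (0:ℝ)..1, |deriv (fun t : ℝ => h (t : UnitAddCircle)) t|

/-- The Birkhoff sum `∑_{k < n} f (x_k)` of the first coordinates of the orbit of `(x, y)`. -/
noncomputable def birkhoff (a : ℝ) (f : ℝ → ℝ) (n : ℕ) (x y : ℝ) : ℝ :=
  ∑ k ∈ Finset.range n, f (((planeMap a)^[k] (x, y)).1)

/-- The growth in time `n` of the momentum (first minus second coordinate) of the lifted map. -/
noncomputable def momentumGrowth (a : ℝ) (n : ℕ) (x y : ℝ) : ℝ :=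
  ((planeMap a)^[n] (x, y)).1 - ((planeMap a)^[n] (x, y)).2 - (x - y)

/-- The error `n^(-1/2) + (n/|a|)^(1/2) (1 + log |a|)`. -/
noncomputable def rate (a : ℝ) (n : ℕ) : ℝ := 1 / √n + √(n / |a|) * (1 + log |a|)

theorem iterate_eq (a : ℝ) (k : ℕ) (x y : ℝ) :
    (planeMap a)^[k] (x, y) = (TH705.SM.X a y (k + 1) x, TH705.SM.X a y k x) := by
  have h := TH705.SM.iter_plane a y x k
  exact h

theorem birkhoff_eq (a : ℝ) (f : ℝ → ℝ) (n : ℕ) (x y : ℝ) :
    birkhoff a f n x y = ∑ k ∈ Finset.range n, f (TH705.SM.X a y (k + 1) x) := by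
  unfold birkhoff
  refine Finset.sum_congr rfl fun k _ => ?_
  rw [iterate_eq]

theorem momentum_eq (a : ℝ) (n : ℕ) (x y : ℝ) :
    momentumGrowth a n x y = a * birkhoff a (fun t => sin (2 * π * t)) n x y := by
  unfold momentumGrowth
  rw [iterate_eq, birkhoff_eq]
  exact TH705.SM.momentum a y x n

/-- the central limit theorem in the form of the starting file -/
theorem clt_rate : ∀ M : ℝ, 0 ≤ M → ∃ C : ℝ, 0 < C ∧ ∀ f f' : ℝ → ℝ,
    (∀ x, HasDerivAt f (f' x) x) → Continuous f' → Periodic f 1 → (∀ x, |f x| ≤ M) →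
    (∀ x, |f' x| ≤ M) → ∫ x in (0:ℝ)..1, f x = 0 → ∀ v : ℝ, ∫ x in (0:ℝ)..1, f x ^ 2 = v →
    ∀ a : ℝ, 1 ≤ |a| → ∀ n : ℕ, 1 ≤ n → ∀ s τ : ℝ,
    ‖(∫ t in (0:ℝ)..1, TH705.SM.E (τ / √n * ∑ k ∈ Finset.range n, f (TH705.SM.X a s (k + 1) t))) -
      ((exp (-(τ ^ 2 * v / 2)) : ℝ) : ℂ)‖ ≤ C * (1 + |τ|) ^ 4 * rate a n :=
  fun _ hM => TH705.SM.clt2 hM

theorem smooth_data {f : ℝ → ℝ} (hf : ContDiff ℝ 1 f) :
    (∀ x, HasDerivAt f (deriv f x) x) ∧ Continuous (deriv f) :=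
  ⟨fun x => (hf.differentiable (by norm_num) x).hasDerivAt, hf.continuous_deriv (by norm_num)⟩

theorem lift_eq {h : UnitAddCircle → ℝ} (hp : Periodic (fun t : ℝ => h (t : UnitAddCircle)) 1) :
    hp.lift = h := by
  funext x
  induction x using QuotientAddGroup.induction_on with
  | H x => rfl

theorem coe_periodic (h : UnitAddCircle → ℝ) : Periodic (fun t : ℝ => h (t : UnitAddCircle)) 1 := by
  intro x
  simp only
  rw [AddCircle.coe_add, AddCircle.coe_period, add_zero]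

/-- the estimate of the starting file, for functions on the circle, with `l = √|a|` -/
theorem corr_circle {a : ℝ} (h0 : TH705.SM.l0 ^ 2 ≤ |a|) (h1 : 1 ≤ |a|) {m : ℕ} (hm : 1 ≤ m)
    {g g2 h1' h2' : UnitAddCircle → ℝ} (hg : Continuous g) (hg2 : Continuous g2)
    (hg1 : ∀ x, |g x| ≤ 1) (hg21 : ∀ x, |g2 x| ≤ 1) (c1 : IsC1 h1') (c2 : IsC1 h2')
    (b1 : ∀ x, |h1' x| ≤ 1) (b2 : ∀ x, |h2' x| ≤ 1) :
    |∫ p : Torus, (g (((TH705.SM.S a)^[m + 1] p).1) - ∫ x, g x) *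
      h1' (((TH705.SM.S a)^[m + 1] p).2) * (g2 p.1 * h2' p.2)| ≤
      (208 * TH705.SM.KK * π ^ 2 + 4 * (variation h1' + variation h2') + 2 * m) / √|a| := by
  have hs0 : 0 < √|a| := Real.sqrt_pos.2 (by linarith)
  have hs1 : 1 ≤ √|a| := Real.one_le_sqrt.2 h1
  have hsq : √|a| ^ 2 = |a| := Real.sq_sqrt (abs_nonneg a)
  have hl0 : TH705.SM.l0 ≤ √|a| := Real.le_sqrt_of_sq_le h0
  have hla : √|a| ≤ |a| := by nlinarith
  obtain ⟨d1, e1⟩ := smooth_data c1
  obtain ⟨d2, e2⟩ := smooth_data c2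
  have p1 := coe_periodic h1'
  have p2 := coe_periodic h2'
  have p1' : Periodic (deriv (fun t : ℝ => h1' (t : UnitAddCircle))) 1 := by
    intro x
    exact TH705.SM.deriv_per d1 p1 x
  have p2' : Periodic (deriv (fun t : ℝ => h2' (t : UnitAddCircle))) 1 := by
    intro x
    exact TH705.SM.deriv_per d2 p2 x
  have H := TH705.SM.corr hl0 hla hm hg hg2 hg1 hg21 d1 e1 p1 p1' (fun x => b1 _) d2 e2 p2 p2'
    (fun x => b2 _)
  rw [lift_eq p1, lift_eq p2] at H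
  refine H.trans (le_of_eq ?_)
  have h3 : √|a| / |a| = 1 / √|a| := by
    rw [div_eq_div_iff (by positivity) hs0.ne']
    nlinarith
  rw [h3]
  unfold variation
  field_simp

theorem iter_snd (a : ℝ) (k : ℕ) (p : Torus) :
    ((TH705.SM.S a)^[k + 1] p).2 = ((TH705.SM.S a)^[k] p).1 := by
  rw [iterate_succ_apply']
  rfl

theorem S_cont_iter (a : ℝ) (k : ℕ) : Continuous (TH705.SM.S a)^[k] :=
  (TH705.SM.S_cont a).iterate k

theorem integral_const_one : ∫ _x : UnitAddCircle, (1 : ℝ) = 1 := by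
  simp

theorem isC1_one : IsC1 (fun _ => (1:ℝ)) := contDiff_const

theorem variation_one : variation (fun _ => (1:ℝ)) = 0 := by
  unfold variation
  simp

theorem variation_nonneg (h : UnitAddCircle → ℝ) : 0 ≤ variation h := by
  unfold variation
  exact intervalIntegral.integral_nonneg (by norm_num) fun _ _ => abs_nonneg _

theorem continuous_of_isC1 {h : UnitAddCircle → ℝ} (c : IsC1 h) : Continuous h := by
  have h1 : Continuous (fun t : ℝ => h (t : UnitAddCircle)) := c.continuous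
  have h2 := TH705.SM.lift_cont (coe_periodic h) h1
  rw [lift_eq] at h2
  exact h2

theorem decay : ∃ C : ℝ, 0 < C ∧ ∀ a : ℝ, C ≤ |a| → ∀ T : Torus → Torus, IsStandardMap a T →
    ∀ n : ℕ, 3 ≤ n → ∀ g₁ g₂ h₁ h₂ : UnitAddCircle → ℝ, Continuous g₁ → Continuous g₂ →
    IsC1 h₁ → IsC1 h₂ → (∀ x, |g₁ x| ≤ 1) → (∀ x, |g₂ x| ≤ 1) → (∀ x, |h₁ x| ≤ 1) →
    (∀ x, |h₂ x| ≤ 1) →
    |(∫ p : Torus, (g₁ (T^[n] p).1 * h₁ (T^[n] p).2) * (g₂ p.1 * h₂ p.2)) -
      (∫ p : Torus, g₁ p.1 * h₁ p.2) * ∫ p : Torus, g₂ p.1 * h₂ p.2| ≤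
      C * (n + variation h₁ + variation h₂) / √|a| := by
  refine ⟨max (max (TH705.SM.l0 ^ 2) 1) (416 * |TH705.SM.KK| * π ^ 2 + 8), ?_, ?_⟩
  · exact lt_of_lt_of_le one_pos ((le_max_right _ _).trans (le_max_left _ _))
  intro a ha T hT n hn g₁ g₂ h₁ h₂ cg₁ cg₂ c₁ c₂ bg₁ bg₂ bh₁ bh₂
  set C : ℝ := max (max (TH705.SM.l0 ^ 2) 1) (416 * |TH705.SM.KK| * π ^ 2 + 8) with hC
  have ha0 : TH705.SM.l0 ^ 2 ≤ |a| := ((le_max_left _ _).trans (le_max_left _ _)).trans ha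
  have ha1 : 1 ≤ |a| := ((le_max_right _ _).trans (le_max_left _ _)).trans ha
  have hC2 : 416 * |TH705.SM.KK| * π ^ 2 + 8 ≤ C := le_max_right _ _
  have hs0 : 0 < √|a| := Real.sqrt_pos.2 (by linarith)
  obtain rfl : T = TH705.SM.S a := TH705.SM.eq_S a T hT
  obtain ⟨k, rfl⟩ : ∃ k, n = k + 1 + 1 + 1 := ⟨n - 3, by omega⟩
  have ch₁ := continuous_of_isC1 c₁
  have ch₂ := continuous_of_isC1 c₂
  have A := corr_circle ha0 ha1 (m := k + 1 + 1) (by omega) cg₁ cg₂ bg₁ bg₂ c₁ c₂ bh₁ bh₂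
  have B := corr_circle ha0 ha1 (m := k + 1) (by omega) ch₁ cg₂ bh₁ bg₂ isC1_one c₂
    (fun _ => by simp) bh₂
  rw [variation_one] at B
  simp only [mul_one] at B
  -- product integrals
  have P : ∀ g h : UnitAddCircle → ℝ,
      ∫ p : Torus, g p.1 * h p.2 = (∫ x, g x) * ∫ x, h x := by
    intro g h
    exact integral_prod_mul g h
  -- continuity
  have ci := S_cont_iter a (k + 1 + 1 + 1)
  have ci' := S_cont_iter a (k + 1 + 1)
  have c21 : Continuous (fun p : Torus => g₂ p.1 * h₂ p.2) :=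
    (cg₂.comp continuous_fst).mul (ch₂.comp continuous_snd)
  have I1 : Integrable (fun p : Torus => (g₁ (((TH705.SM.S a)^[k + 1 + 1 + 1] p).1) - ∫ x, g₁ x) *
      h₁ (((TH705.SM.S a)^[k + 1 + 1 + 1] p).2) * (g₂ p.1 * h₂ p.2)) :=
    TH705.SM.integrable_cont ((((cg₁.comp (continuous_fst.comp ci)).sub continuous_const).mul
      (ch₁.comp (continuous_snd.comp ci))).mul c21)
  have I2 : Integrable (fun p : Torus => (h₁ (((TH705.SM.S a)^[k + 1 + 1] p).1) - ∫ x, h₁ x) *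
      (g₂ p.1 * h₂ p.2)) :=
    TH705.SM.integrable_cont (((ch₁.comp (continuous_fst.comp ci')).sub continuous_const).mul c21)
  have I3 : Integrable (fun p : Torus => g₂ p.1 * h₂ p.2) := TH705.SM.integrable_cont c21
  -- the decomposition
  have key : (∫ p : Torus, (g₁ ((TH705.SM.S a)^[k + 1 + 1 + 1] p).1 *
        h₁ ((TH705.SM.S a)^[k + 1 + 1 + 1] p).2) * (g₂ p.1 * h₂ p.2)) -
      (∫ p : Torus, g₁ p.1 * h₁ p.2) * ∫ p : Torus, g₂ p.1 * h₂ p.2 =
      (∫ p : Torus, (g₁ (((TH705.SM.S a)^[k + 1 + 1 + 1] p).1) - ∫ x, g₁ x) *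
        h₁ (((TH705.SM.S a)^[k + 1 + 1 + 1] p).2) * (g₂ p.1 * h₂ p.2)) +
      (∫ x, g₁ x) * ∫ p : Torus, (h₁ (((TH705.SM.S a)^[k + 1 + 1] p).1) - ∫ x, h₁ x) *
      (g₂ p.1 * h₂ p.2) := by
    have e1 : ∫ p : Torus, (g₁ ((TH705.SM.S a)^[k + 1 + 1 + 1] p).1 *
        h₁ ((TH705.SM.S a)^[k + 1 + 1 + 1] p).2) * (g₂ p.1 * h₂ p.2) =
        ∫ p : Torus, ((g₁ (((TH705.SM.S a)^[k + 1 + 1 + 1] p).1) - ∫ x, g₁ x) *
        h₁ (((TH705.SM.S a)^[k + 1 + 1 + 1] p).2) * (g₂ p.1 * h₂ p.2) +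
        ((∫ x, g₁ x) * ((h₁ (((TH705.SM.S a)^[k + 1 + 1] p).1) - ∫ x, h₁ x) *
          (g₂ p.1 * h₂ p.2)) + ((∫ x, g₁ x) * ∫ x, h₁ x) * (g₂ p.1 * h₂ p.2))) := by
      congr 1
      funext p
      rw [iter_snd a (k + 1 + 1) p]
      ring
    have I2' : Integrable (fun p : Torus => (∫ x, g₁ x) *
        ((h₁ (((TH705.SM.S a)^[k + 1 + 1] p).1) - ∫ x, h₁ x) * (g₂ p.1 * h₂ p.2))) :=
      I2.const_mul _
    have I3' : Integrable (fun p : Torus => ((∫ x, g₁ x) * ∫ x, h₁ x) * (g₂ p.1 * h₂ p.2)) :=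
      I3.const_mul _
    have I23 : Integrable (fun p : Torus => (∫ x, g₁ x) *
        ((h₁ (((TH705.SM.S a)^[k + 1 + 1] p).1) - ∫ x, h₁ x) * (g₂ p.1 * h₂ p.2)) +
        ((∫ x, g₁ x) * ∫ x, h₁ x) * (g₂ p.1 * h₂ p.2)) := I2'.add I3'
    rw [e1, integral_add I1 I23, integral_add I2' I3', integral_const_mul, integral_const_mul, P, P]
    ring
  rw [key]
  have hG : |∫ x, g₁ x| ≤ 1 := by
    have := norm_integral_le_of_norm_le_const (μ := (volume : Measure UnitAddCircle)) (f := g₁)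
      (C := 1) (Filter.Eventually.of_forall fun x => by rw [norm_eq_abs]; exact bg₁ x)
    simpa using this
  refine (abs_add_le _ _).trans ?_
  rw [abs_mul]
  have B' : |∫ x, g₁ x| * |∫ p : Torus, (h₁ (((TH705.SM.S a)^[k + 1 + 1] p).1) - ∫ x, h₁ x) *
      (g₂ p.1 * h₂ p.2)| ≤ (208 * TH705.SM.KK * π ^ 2 + 4 * (0 + variation h₂) +
        2 * ((k + 1 : ℕ) : ℝ)) / √|a| := by
    calc _ ≤ 1 * |∫ p : Torus, (h₁ (((TH705.SM.S a)^[k + 1 + 1] p).1) - ∫ x, h₁ x) *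
          (g₂ p.1 * h₂ p.2)| := by gcongr
      _ ≤ _ := by rw [one_mul]; exact B
  refine (add_le_add A B').trans ?_
  rw [← add_div]
  apply div_le_div_of_nonneg_right _ hs0.le
  have hK : TH705.SM.KK ≤ |TH705.SM.KK| := le_abs_self _
  have hpi : 0 < π ^ 2 := by positivity
  have v1 := variation_nonneg h₁
  have v2 := variation_nonneg h₂
  have hKp : 0 ≤ |TH705.SM.KK| * π ^ 2 := by positivity
  have hKK : TH705.SM.KK * π ^ 2 ≤ |TH705.SM.KK| * π ^ 2 := by gcongr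
  push_cast
  have hk : (0:ℝ) ≤ k := Nat.cast_nonneg k
  have hC8 : 8 ≤ C := by nlinarith
  have hN : 1 ≤ (k + 1 + 1 + 1 : ℝ) := by linarith
  have hfin : (416 * |TH705.SM.KK| * π ^ 2 + 8) * (k + 1 + 1 + 1 + variation h₁ + variation h₂) ≤
      C * (k + 1 + 1 + 1 + variation h₁ + variation h₂) := by
    apply mul_le_mul_of_nonneg_right hC2
    linarith
  refine le_trans ?_ hfin
  have hs : 1 ≤ (k + 1 + 1 + 1 + variation h₁ + variation h₂ : ℝ) := by linarith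
  have : 416 * (|TH705.SM.KK| * π ^ 2) * 1 ≤
      416 * (|TH705.SM.KK| * π ^ 2) * (k + 1 + 1 + 1 + variation h₁ + variation h₂) := by
    apply mul_le_mul_of_nonneg_left hs
    linarith
  nlinarith

theorem sin_data : ContDiff ℝ 1 (fun t : ℝ => sin (2 * π * t)) ∧
    Periodic (fun t : ℝ => sin (2 * π * t)) 1 ∧ (∫ t in (0:ℝ)..1, sin (2 * π * t)) = 0 ∧
    (∫ t in (0:ℝ)..1, sin (2 * π * t) ^ 2) = 1 / 2 := by
  have hpi := pi_pos
  refine ⟨by fun_prop, ?_, ?_, ?_⟩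
  · intro x
    simp only
    rw [mul_add, mul_one, sin_add_two_pi]
  · have := intervalIntegral.integral_comp_mul_left (a := 0) (b := 1) (fun x => sin x)
      (c := 2 * π) (by positivity)
    rw [this]
    simp [integral_sin]
  · have := intervalIntegral.integral_comp_mul_left (a := 0) (b := 1) (fun x => sin x ^ 2)
      (c := 2 * π) (by positivity)
    rw [this, integral_sin_sq]
    simp
    field_simp

/-- **Finite-time mixing, central limit theorem, momentum diffusion, for all large parameters.** -/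
theorem result :
    -- (1) decay of correlations
    (∃ C : ℝ, 0 < C ∧ ∀ a : ℝ, C ≤ |a| → ∀ T : Torus → Torus, IsStandardMap a T →
      ∀ n : ℕ, 3 ≤ n → ∀ g₁ g₂ h₁ h₂ : UnitAddCircle → ℝ, Continuous g₁ → Continuous g₂ →
      IsC1 h₁ → IsC1 h₂ → (∀ x, |g₁ x| ≤ 1) → (∀ x, |g₂ x| ≤ 1) → (∀ x, |h₁ x| ≤ 1) →
      (∀ x, |h₂ x| ≤ 1) →
      |(∫ p : Torus, (g₁ (T^[n] p).1 * h₁ (T^[n] p).2) * (g₂ p.1 * h₂ p.2)) -
        (∫ p : Torus, g₁ p.1 * h₁ p.2) * ∫ p : Torus, g₂ p.1 * h₂ p.2| ≤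
        C * (n + variation h₁ + variation h₂) / √|a|) ∧
    -- (2) the central limit theorem with a rate, on every horizontal line
    (∀ M : ℝ, 0 ≤ M → ∃ C : ℝ, 0 < C ∧ ∀ f : ℝ → ℝ, ContDiff ℝ 1 f → Periodic f 1 →
      (∀ x, |f x| ≤ M) → (∀ x, |deriv f x| ≤ M) → ∫ x in (0:ℝ)..1, f x = 0 →
      ∀ a : ℝ, 1 ≤ |a| → ∀ n : ℕ, 1 ≤ n → ∀ y τ : ℝ,
      ‖(∫ x in (0:ℝ)..1, Complex.exp (((τ * (birkhoff a f n x y / √n) : ℝ) : ℂ) * Complex.I)) -
        ((exp (-(τ ^ 2 * (∫ x in (0:ℝ)..1, f x ^ 2) / 2)) : ℝ) : ℂ)‖ ≤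
        C * (1 + |τ|) ^ 4 * rate a n) ∧
    -- (3) convergence in distribution to the normal law, on any horizontal lines
    (∀ f : ℝ → ℝ, ContDiff ℝ 1 f → Periodic f 1 → ∫ x in (0:ℝ)..1, f x = 0 →
      0 < ∫ x in (0:ℝ)..1, f x ^ 2 →
      ∀ (a : ℕ → ℝ) (n : ℕ → ℕ), (∀ j, 1 ≤ |a j|) → (∀ j, 1 ≤ n j) →
      Tendsto (fun j => rate (a j) (n j)) atTop (𝓝 0) → ∀ (y : ℕ → ℝ) (z : ℝ),
      Tendsto (fun j => volume {x : ℝ | x ∈ Set.Ioc (0:ℝ) 1 ∧
        birkhoff (a j) f (n j) x (y j) / √(n j) ≤ z}) atTop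
        (𝓝 (gaussianReal 0 (∫ x in (0:ℝ)..1, f x ^ 2).toNNReal (Set.Iic z)))) ∧
    -- (4) quasilinear diffusion of the momentum of the lifted map
    (∀ (a : ℕ → ℝ) (n : ℕ → ℕ), (∀ j, 1 ≤ |a j|) → (∀ j, 1 ≤ n j) →
      Tendsto (fun j => rate (a j) (n j)) atTop (𝓝 0) → ∀ (y : ℕ → ℝ) (z : ℝ),
      Tendsto (fun j => volume {x : ℝ | x ∈ Set.Ioc (0:ℝ) 1 ∧
        momentumGrowth (a j) (n j) x (y j) / (a j * √(n j)) ≤ z}) atTop
        (𝓝 (gaussianReal 0 (1 / 2) (Set.Iic z)))) := by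
  have h3 : (∀ f : ℝ → ℝ, ContDiff ℝ 1 f → Periodic f 1 → ∫ x in (0:ℝ)..1, f x = 0 →
      0 < ∫ x in (0:ℝ)..1, f x ^ 2 →
      ∀ (a : ℕ → ℝ) (n : ℕ → ℕ), (∀ j, 1 ≤ |a j|) → (∀ j, 1 ≤ n j) →
      Tendsto (fun j => rate (a j) (n j)) atTop (𝓝 0) → ∀ (y : ℕ → ℝ) (z : ℝ),
      Tendsto (fun j => volume {x : ℝ | x ∈ Set.Ioc (0:ℝ) 1 ∧
        birkhoff (a j) f (n j) x (y j) / √(n j) ≤ z}) atTop
        (𝓝 (gaussianReal 0 (∫ x in (0:ℝ)..1, f x ^ 2).toNNReal (Set.Iic z)))) := by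
    intro f cf pf f0 hv a n ha hn hr y z
    obtain ⟨d, c⟩ := smooth_data cf
    simp_rw [birkhoff_eq]
    exact TH705.SM.clt_seq clt_rate d c pf f0 hv rfl ha hn hr y z
  refine ⟨decay, ?_, h3, ?_⟩
  · intro M hM
    obtain ⟨C, hC, H⟩ := clt_rate M hM
    refine ⟨C, hC, ?_⟩
    intro f cf pf bf bf' f0 a ha n hn y τ
    obtain ⟨d, c⟩ := smooth_data cf
    have h := H f (deriv f) d c pf bf bf' f0 _ rfl a ha n hn y τ
    have e : ∀ x, Complex.exp (((τ * (birkhoff a f n x y / √n) : ℝ) : ℂ) * Complex.I) =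
        TH705.SM.E (τ / √n * ∑ k ∈ Finset.range n, f (TH705.SM.X a y (k + 1) x)) := by
      intro x
      unfold TH705.SM.E
      rw [birkhoff_eq]
      congr 3
      ring
    simp_rw [e]
    exact h
  · intro a n ha hn hr y z
    obtain ⟨cs, ps, s0, s2⟩ := sin_data
    have h := h3 (fun t => sin (2 * π * t)) cs ps s0 (by rw [s2]; norm_num) a n ha hn hr y z
    rw [s2] at h
    have e : ∀ j, {x : ℝ | x ∈ Set.Ioc (0:ℝ) 1 ∧
        momentumGrowth (a j) (n j) x (y j) / (a j * √(n j)) ≤ z} =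
        {x : ℝ | x ∈ Set.Ioc (0:ℝ) 1 ∧
        birkhoff (a j) (fun t => sin (2 * π * t)) (n j) x (y j) / √(n j) ≤ z} := by
      intro j
      have ha0 : a j ≠ 0 := by
        intro h
        have := ha j
        rw [h, abs_zero] at this
        linarith
      ext x
      simp only [Set.mem_ofPred_eq]
      rw [momentum_eq, mul_div_mul_left _ _ ha0]
    simp_rw [e]
    have e2 : (1 / 2 : ℝ).toNNReal = 1 / 2 := by
      rw [← NNReal.coe_inj, Real.coe_toNNReal _ (by norm_num)]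
      norm_num
    rw [e2] at h
    exact h

end Pool.Agent.Results.MP_9ee088_an.FiniteTimeStatistics
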