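import Pool.Agent.Y332.SM.Fin

set_option autoImplicit false

/-!
# The standard map has no Lipschitz factors of equicontinuous type, at huge scales

Let `T = S_a (x, y) = (2x - y + a sin 2πx, x)` on the torus, with `|a| ≥ 256` (NO parameter is
excluded). Let `R : Z → Z` be a map of a metric space which does not increase distances (for instance
the identity, a rotation of the circle, an isometry, a multiplication by `λ` with `|λ| ≤ 1`, a
translation of `ℝ`), and let `π : torus → Z` be Lipschitz of constant `L` with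
`dist (π (T p)) (R (π p)) ≤ ε`: an (approximate) semiconjugacy of `S_a` to `R`. If `S_a` were ergodic
and weakly mixing, an exact semiconjugacy would be constant. Here, for every `n ≥ 1` with
`err n = 3 n / |a| + 4 / √|a| < 1` there is a set `G_n` of the torus, of area at least `1 - 2 err n`,
which depends only on `a` and `n` (not on `Z, R, π`), such that for all `p, q` in `G_n`

* `dist (π p) (π q) ≤ 4 L |a| ^ (-n / 4) + 4 n ε`: `π` is nearly constant;
* `dist (R (π p)) (π p) ≤ 4 L |a| ^ (-n / 4) + (4 n + 1) ε`: its value is nearly fixed by `R`.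

With `n` of order `|a|`: the error `|a| ^ (-n / 4)` is extremely small.
-/

open Real MeasureTheory
open scoped ENNReal

namespace Pool.Agent.Results.MP_9ee088_an.NoLipschitzFactors

/-- The torus `ℝ² / ℤ²`, with its Lebesgue measure `volume` and the sup distance. -/
abbrev Torus := UnitAddCircle × UnitAddCircle

/-- `T` is the standard map `S_a` of the torus. -/
def IsStandardMap (a : ℝ) (T : Torus → Torus) : Prop :=
  ∀ x y : ℝ, T ((x : UnitAddCircle), (y : UnitAddCircle)) =
    (((2 * x - y + a * sin (2 * π * x) : ℝ) : UnitAddCircle), (x : UnitAddCircle))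

/-- The error `3 n / |a| + 4 / √|a|`. -/
noncomputable def err (a : ℝ) (n : ℕ) : ℝ := 3 * n / |a| + 4 / √|a|

/-- The scale `|a| ^ (-n / 4)`. -/
noncomputable def scale (a : ℝ) (n : ℕ) : ℝ := |a| ^ (-(n : ℝ) / 4)

/-- `φ` is Lipschitz of constant `L`, it is a semiconjugacy of `T` to `R` up to `ε`, and `R` does not
increase distances. -/
structure ApproxFactor (T : Torus → Torus) (Z : Type) [MetricSpace Z] (R : Z → Z) (φ : Torus → Z)
    (L ε : ℝ) : Prop where
  nonexpanding : ∀ u v : Z, dist (R u) (R v) ≤ dist u v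
  lipschitz : ∀ p q : Torus, dist (φ p) (φ q) ≤ L * dist p q
  semiconj : ∀ p : Torus, dist (φ (T p)) (R (φ p)) ≤ ε

theorem sqrt_ge {a : ℝ} (ha : 256 ≤ |a|) : 16 ≤ √|a| := by
  apply Real.le_sqrt_of_sq_le
  norm_num
  exact ha

theorem scale_ge {a : ℝ} (ha : 256 ≤ |a|) (n : ℕ) :
    (1 / √√|a|) ^ (n + 1) / 5 ≤ scale a n := by
  have ha0 : 0 < |a| := by linarith
  have h1 : 1 / √√|a| = |a| ^ (-(1:ℝ) / 4) := by
    rw [Real.sqrt_eq_rpow, Real.sqrt_eq_rpow, ← Real.rpow_mul ha0.le, one_div, ← Real.rpow_neg ha0.le]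
    norm_num
  have h2 : (1 / √√|a|) ^ n = scale a n := by
    unfold scale
    rw [h1, ← Real.rpow_natCast, ← Real.rpow_mul ha0.le]
    congr 1
    ring
  have h3 : 0 < √√|a| := Real.sqrt_pos.2 (Real.sqrt_pos.2 ha0)
  have h4 : 1 / √√|a| ≤ 1 := by
    rw [div_le_one h3]
    apply Real.le_sqrt_of_sq_le
    have := sqrt_ge ha
    linarith
  rw [pow_succ, h2]
  have h5 : 0 ≤ scale a n := by
    unfold scale
    positivity
  have h6 : 0 < 1 / √√|a| := by positivity
  nlinarith

theorem err_ge {a : ℝ} (ha : 256 ≤ |a|) (n : ℕ) :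
    3 * n / |a| + 3.71 / √|a| ≤ err a n := by
  unfold err
  have h := sqrt_ge ha
  have h2 : (3.71:ℝ) / √|a| ≤ 4 / √|a| := div_le_div_of_nonneg_right (by norm_num) (by linarith)
  linarith

theorem iter_close {T : Torus → Torus} {Z : Type} [MetricSpace Z] {R : Z → Z} {φ : Torus → Z}
    {L ε : ℝ} (h : ApproxFactor T Z R φ L ε) (k : ℕ) (p : Torus) :
    dist (φ (T^[k] p)) (R^[k] (φ p)) ≤ k * ε := by
  induction k with
  | zero => simp
  | succ k ih =>
    rw [Function.iterate_succ_apply', Function.iterate_succ_apply']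
    have h1 := dist_triangle (φ (T (T^[k] p))) (R (φ (T^[k] p))) (R (R^[k] (φ p)))
    have h2 := h.semiconj (T^[k] p)
    have h3 := h.nonexpanding (φ (T^[k] p)) (R^[k] (φ p))
    push_cast
    linarith

theorem iter_nonexp {T : Torus → Torus} {Z : Type} [MetricSpace Z] {R : Z → Z} {φ : Torus → Z}
    {L ε : ℝ} (h : ApproxFactor T Z R φ L ε) (k : ℕ) (u v : Z) :
    dist (R^[k] u) (R^[k] v) ≤ dist u v := by
  induction k with
  | zero => exact le_rfl
  | succ k ih =>
    rw [Function.iterate_succ_apply', Function.iterate_succ_apply']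
    exact (h.nonexpanding _ _).trans ih

/-- **Lipschitz factors of the standard map, for every parameter `|a| ≥ 256`.** -/
theorem result (a : ℝ) (ha : 256 ≤ |a|) (T : Torus → Torus) (hT : IsStandardMap a T) :
    ∃ G : ℕ → Set Torus,
      (∀ n, 1 ≤ n → MeasurableSet (G n) ∧ volume (G n)ᶜ ≤ ENNReal.ofReal (2 * err a n)) ∧
      -- (1) the semiconjugacies to nonexpanding maps
      (∀ n : ℕ, 1 ≤ n → err a n < 1 →
        ∀ (Z : Type) [MetricSpace Z] (R : Z → Z) (φ : Torus → Z) (L ε : ℝ),
          ApproxFactor T Z R φ L ε → ∀ p ∈ G n, ∀ q ∈ G n,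
            dist (φ p) (φ q) ≤ 4 * L * scale a n + 4 * n * ε ∧
            dist (R (φ p)) (φ p) ≤ 4 * L * scale a n + (4 * n + 1) * ε) ∧
      -- (2) the complex functions
      (∀ n : ℕ, 1 ≤ n → err a n < 1 →
        ∀ (f : Torus → ℂ) (l : ℂ) (L ε : ℝ), ‖l‖ ≤ 1 → (∀ p q, ‖f p - f q‖ ≤ L * dist p q) →
          (∀ p, ‖f (T p) - l * f p‖ ≤ ε) → ∀ p ∈ G n, ∀ q ∈ G n,
            ‖f p - f q‖ ≤ 4 * L * scale a n + 4 * n * ε ∧
            ‖(l - 1) * f p‖ ≤ 4 * L * scale a n + (4 * n + 1) * ε) := by
  have hTS : T = TH705.SM.S a := TH705.SM.eq_S a T hT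
  have hM := sqrt_ge ha
  have haM : |a| = √|a| ^ 2 := (Real.sq_sqrt (abs_nonneg a)).symm
  have hSmp : MeasurePreserving T (volume : Measure Torus) volume := by
    rw [hTS]
    exact TH705.SM.S_mp a
  set Q : ℕ → Set Torus := fun n =>
    Prod.swap ⁻¹' (toMeasurable volume (Y332.SM.bad a (√|a|) n))ᶜ with hQ
  have hQm : ∀ n, MeasurableSet (Q n) := fun n =>
    (measurableSet_toMeasurable _ _).compl.preimage measurable_swap
  have hb : ∀ n, 1 ≤ n → volume (Y332.SM.bad a (√|a|) n) ≤ ENNReal.ofReal (err a n) := fun n hn =>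
    (Y332.SM.vol_bad hM haM hn).trans (ENNReal.ofReal_le_ofReal (err_ge ha n))
  have hQv : ∀ n, 1 ≤ n → volume (Q n)ᶜ ≤ ENNReal.ofReal (err a n) := by
    intro n hn
    rw [hQ]
    simp only
    rw [← Set.preimage_compl, compl_compl, Y332.SM.vol_swap, measure_toMeasurable]
    exact hb n hn
  have herr : ∀ n, 0 ≤ err a n := by
    intro n
    unfold err
    positivity
  have huniv : volume (Set.univ : Set Torus) = 1 := by
    rw [Measure.volume_eq_prod, ← Set.univ_prod_univ, Measure.prod_prod]
    simp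
  -- the general statement
  have main : ∀ n : ℕ, 1 ≤ n → err a n < 1 →
        ∀ (Z : Type) [MetricSpace Z] (R : Z → Z) (φ : Torus → Z) (L ε : ℝ),
          ApproxFactor T Z R φ L ε → ∀ p ∈ Q n ∩ T ⁻¹' Q n, ∀ q ∈ Q n ∩ T ⁻¹' Q n,
            dist (φ p) (φ q) ≤ 4 * L * scale a n + 4 * n * ε ∧
            dist (R (φ p)) (φ p) ≤ 4 * L * scale a n + (4 * n + 1) * ε := by
    intro n hn hn1 Z _ R φ L ε h
    -- a good starting point
    obtain ⟨p0, hp0⟩ : ∃ p0 : Torus, p0 ∉ Y332.SM.bad a (√|a|) n := by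
      by_contra hcon
      push Not at hcon
      have h1 : Y332.SM.bad a (√|a|) n = Set.univ := Set.eq_univ_iff_forall.2 hcon
      have h2 := hb n hn
      rw [h1, huniv] at h2
      have h3 : ENNReal.ofReal (err a n) < 1 := by
        rw [ENNReal.ofReal_lt_one]
        exact hn1
      exact absurd h2 (not_le.2 h3)
    have hL : 0 ≤ L := by
      have h1 := h.lipschitz ((0 : UnitAddCircle), (0 : UnitAddCircle))
        (((1 / 2 : ℝ) : UnitAddCircle), (0 : UnitAddCircle))
      by_contra hcon
      rw [not_le] at hcon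
      have h2 : 0 < dist (((0 : UnitAddCircle), (0 : UnitAddCircle)) : Torus)
          (((1 / 2 : ℝ) : UnitAddCircle), (0 : UnitAddCircle)) := by
        rw [dist_pos]
        intro he
        have h3 : ((1 / 2 : ℝ) : UnitAddCircle) = 0 := (Prod.mk.inj he).1.symm
        rw [AddCircle.coe_eq_zero_iff] at h3
        obtain ⟨k, hk⟩ := h3
        simp only [zsmul_eq_mul, mul_one] at hk
        have h4 : ((2 * k : ℤ) : ℝ) = ((1 : ℤ) : ℝ) := by
          push_cast
          linarith
        have h5 : 2 * k = 1 := by exact_mod_cast h4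
        omega
      have h3 : L * dist (((0 : UnitAddCircle), (0 : UnitAddCircle)) : Torus)
          (((1 / 2 : ℝ) : UnitAddCircle), (0 : UnitAddCircle)) < 0 := mul_neg_of_neg_of_pos hcon h2
      have h4 := dist_nonneg (x := φ ((0 : UnitAddCircle), (0 : UnitAddCircle)))
        (y := φ (((1 / 2 : ℝ) : UnitAddCircle), (0 : UnitAddCircle)))
      linarith
    -- all the good final points are close to the same value
    have key : ∀ q ∈ Q n, dist (φ q) (R^[n + n] (φ p0)) ≤ 2 * L * scale a n + 2 * n * ε := by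
      intro q hq
      obtain ⟨p', q', h1, h2, h3⟩ := Y332.SM.mixing hM haM hn hn hp0
        (fun hh => hq (subset_toMeasurable _ _ hh))
      rw [← hTS] at h3
      have h4 := iter_close h (n + n) p'
      have h5 := iter_nonexp h (n + n) (φ p') (φ p0)
      have h6 := h.lipschitz p' p0
      have h7 := h.lipschitz q q'
      have h8 : dist p' p0 ≤ scale a n := by
        rw [dist_comm]
        exact h1.trans (scale_ge ha n)
      have h9 : dist q q' ≤ scale a n := h2.trans (scale_ge ha n)
      have h10 := mul_le_mul_of_nonneg_left h8 hL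
      have h11 := mul_le_mul_of_nonneg_left h9 hL
      rw [h3] at h4
      have h12 := dist_triangle (φ q) (φ q') (R^[n + n] (φ p0))
      have h13 := dist_triangle (φ q') (R^[n + n] (φ p')) (R^[n + n] (φ p0))
      push_cast at h4
      linarith
    have key2 : ∀ p ∈ Q n, ∀ q ∈ Q n, dist (φ p) (φ q) ≤ 4 * L * scale a n + 4 * n * ε := by
      intro p hp q hq
      have h1 := key p hp
      have h2 := key q hq
      rw [dist_comm] at h2
      have h3 := dist_triangle (φ p) (R^[n + n] (φ p0)) (φ q)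
      linarith
    intro p hp q hq
    refine ⟨key2 p hp.1 q hq.1, ?_⟩
    have h1 := key2 (T p) hp.2 p hp.1
    have h2 := h.semiconj p
    rw [dist_comm] at h2
    have h3 := dist_triangle (R (φ p)) (φ (T p)) (φ p)
    linarith
  refine ⟨fun n => Q n ∩ T ⁻¹' Q n, ?_, main, ?_⟩
  · intro n hn
    refine ⟨(hQm n).inter (hSmp.measurable (hQm n)), ?_⟩
    rw [Set.compl_inter]
    refine (measure_union_le _ _).trans ?_
    have h5 : volume (T ⁻¹' Q n)ᶜ = volume (Q n)ᶜ :=
      hSmp.measure_preimage (hQm n).compl.nullMeasurableSet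
    rw [h5, two_mul, ENNReal.ofReal_add (herr n) (herr n)]
    exact add_le_add (hQv n hn) (hQv n hn)
  · intro n hn hn1 f l L ε hl hf hfe p hp q hq
    have h : ApproxFactor T ℂ (fun u => l * u) f L ε := by
      refine ⟨?_, ?_, ?_⟩
      · intro u v
        rw [dist_eq_norm, dist_eq_norm, ← mul_sub, norm_mul]
        exact mul_le_of_le_one_left (norm_nonneg _) hl
      · intro p q
        rw [dist_eq_norm]
        exact hf p q
      · intro p
        rw [dist_eq_norm]
        exact hfe p
    obtain ⟨h1, h2⟩ := main n hn hn1 ℂ _ f L ε h p hp q hq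
    rw [dist_eq_norm] at h1 h2
    refine ⟨h1, ?_⟩
    have e : (l - 1) * f p = l * f p - f p := by ring
    rw [e]
    exact h2

end Pool.Agent.Results.MP_9ee088_an.NoLipschitzFactors
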