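import Pool.Agent.Q183.SMG.Len

set_option autoImplicit false

/-!
# The standard map: products with other systems, and eigenfunctions

Let `T = S_a (x, y) = (2x - y + a sin 2πx, x)` on the torus, with `|a| ≥ 256` (NO parameter is
excluded). Ergodicity of `S_a` on a mixing component would come with weak mixing, i.e. with the
ergodicity of the products `S_a × R`. Here `R : Y → Y` is any map, and `A` is a set of the torus times
`Y` which is invariant under `S_a × R`, with fibres `A_y` (for `Y` a point: an invariant set of `S_a`).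

* for all `y` and `n, m ≥ 1`: either the boundary of the fibre `A_y` has a neighbourhood of radius
  `|a| ^ (-n / 4)` and of area at least `min (|A_y|, |A_yᶜ|) - 3 n / |a| - 4 / √|a|`, or the boundary
  of the fibre over `R^(n + m) y` has a neighbourhood of radius `|a| ^ (-m / 4)` and of area at least
  `1 - 3 m / |a| - 4 / √|a|`;
* if `R` preserves a probability `ν`, and if the fibres `A_y` have area between `η` and `1 - η` for a
  set of `y` of measure `δ`, then for a set of `y` of measure at least `δ / 2` the boundary of `A_y` has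
  length at least about `|a| ^ (η |a| / 12)`;
* if `f` is an eigenfunction of `S_a` of modulus one for an eigenvalue `λ ≠ 1`, then for all `z` on the
  unit circle one of the four sets `{Re (w f) > 0}`, `w = z, i z, λ^(-N) z, i λ^(-N) z`, has a boundary of
  length at least about `|a| ^ (|a| / 48)`, where `N` depends on `a` only.
-/

open Real MeasureTheory
open scoped ENNReal

namespace Pool.Agent.Results.MP_9ee088_an.ProductsAndEigenfunctions

/-- The torus `ℝ² / ℤ²`, with its Lebesgue measure `volume` and the sup distance. -/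
abbrev Torus := UnitAddCircle × UnitAddCircle

/-- `T` is the standard map `S_a` of the torus. -/
def IsStandardMap (a : ℝ) (T : Torus → Torus) : Prop :=
  ∀ x y : ℝ, T ((x : UnitAddCircle), (y : UnitAddCircle)) =
    (((2 * x - y + a * sin (2 * π * x) : ℝ) : UnitAddCircle), (x : UnitAddCircle))

/-- The error `3 n / |a| + 4 / √|a|`. -/
noncomputable def err (a : ℝ) (n : ℕ) : ℝ := 3 * n / |a| + 4 / √|a|

/-- The scale `|a| ^ (-n / 4)`. -/
noncomputable def scale (a : ℝ) (n : ℕ) : ℝ := |a| ^ (-(n : ℝ) / 4)

/-- The length of the boundary of `A` (one-dimensional Hausdorff measure). -/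
noncomputable def len (A : Set Torus) : ℝ≥0∞ := Measure.hausdorffMeasure 1 (frontier A)

/-- The area of the neighbourhood of radius `scale a n` of the boundary of `A`. -/
noncomputable def thick (a : ℝ) (n : ℕ) (A : Set Torus) : ℝ≥0∞ :=
  volume (Metric.cthickening (scale a n) (frontier A))

/-- The fibre of `A` over `y`. -/
def fib {Y : Type} (A : Set (Torus × Y)) (y : Y) : Set Torus := {p | (p, y) ∈ A}

/-- `A` is invariant under `T × R`. -/
def ProductInvariant {Y : Type} (T : Torus → Torus) (R : Y → Y) (A : Set (Torus × Y)) : Prop :=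
  ∀ p y, (T p, R y) ∈ A ↔ (p, y) ∈ A

theorem sqrt_ge {a : ℝ} (ha : 256 ≤ |a|) : 16 ≤ √|a| := by
  apply Real.le_sqrt_of_sq_le
  norm_num
  exact ha

theorem scale_ge {a : ℝ} (ha : 256 ≤ |a|) (n : ℕ) :
    (1 / √√|a|) ^ (n + 1) / 5 ≤ scale a n := by
  have ha0 : 0 < |a| := by linarith
  have h1 : 1 / √√|a| = |a| ^ (-(1:ℝ) / 4) := by
    rw [Real.sqrt_eq_rpow, Real.sqrt_eq_rpow, ← Real.rpow_mul ha0.le, one_div, ← Real.rpow_neg ha0.le]
    norm_num
  have h2 : (1 / √√|a|) ^ n = scale a n := by
    unfold scale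
    rw [h1, ← Real.rpow_natCast, ← Real.rpow_mul ha0.le]
    congr 1
    ring
  have h3 : 0 < √√|a| := Real.sqrt_pos.2 (Real.sqrt_pos.2 ha0)
  have h4 : 1 / √√|a| ≤ 1 := by
    rw [div_le_one h3]
    apply Real.le_sqrt_of_sq_le
    have := sqrt_ge ha
    linarith
  rw [pow_succ, h2]
  have h5 : 0 ≤ scale a n := by
    unfold scale
    positivity
  have h6 : 0 < 1 / √√|a| := by positivity
  nlinarith

theorem err_ge {a : ℝ} (ha : 256 ≤ |a|) (n : ℕ) :
    3 * n / |a| + 3.71 / √|a| ≤ err a n := by
  unfold err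
  have h := sqrt_ge ha
  have h2 : (3.71:ℝ) / √|a| ≤ 4 / √|a| := div_le_div_of_nonneg_right (by norm_num) (by linarith)
  linarith

theorem fib_iter {a : ℝ} {Y : Type} {R : Y → Y} {A : Set (Torus × Y)}
    (hA : ProductInvariant (TH705.SM.S a) R A) (k : ℕ) (y : Y) :
    fib A (R^[k] y) = (TH705.SM.S a)^[k] '' fib A y := by
  have h1 : ∀ (k : ℕ) (p : Torus) (y : Y),
      ((TH705.SM.S a)^[k] p, R^[k] y) ∈ A ↔ (p, y) ∈ A := by
    intro k
    induction k with
    | zero => intro p y; rfl
    | succ k ih =>
      intro p y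
      rw [Function.iterate_succ_apply', Function.iterate_succ_apply', hA, ih]
  have hsurj : Function.Surjective ((TH705.SM.S a)^[k]) := by
    have hl : Function.RightInverse (TH705.SM.Si a) (TH705.SM.S a) := Y332.SM.S_Si a
    exact hl.surjective.iterate k
  ext q
  constructor
  · intro hq
    obtain ⟨p, rfl⟩ := hsurj q
    exact ⟨p, (h1 k p y).1 hq, rfl⟩
  · rintro ⟨p, hp, rfl⟩
    exact (h1 k p y).2 hp

/-- the two halves of the torus defined by a function of mean zero and modulus at most one -/
theorem halves {g : Torus → ℝ} (hg : Measurable g) (h1 : ∀ᵐ p, |g p| ≤ 1) (h0 : ∫ p, g p = 0) {c : ℝ}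
    (hc : c ≤ ∫ p, g p ^ 2) :
    ENNReal.ofReal (c / 2) ≤ volume {p | 0 < g p} ∧ ENNReal.ofReal (c / 2) ≤ volume {p | 0 < g p}ᶜ := by
  have hgi : Integrable g := by
    refine Integrable.mono' (integrable_const (1:ℝ)) hg.aestronglyMeasurable ?_
    filter_upwards [h1] with p hp
    exact hp
  have hsi : Integrable (fun p => g p ^ 2) := by
    refine Integrable.mono' (integrable_const (1:ℝ)) (hg.pow_const 2).aestronglyMeasurable ?_
    filter_upwards [h1] with p hp
    rw [Real.norm_eq_abs, abs_pow]
    exact pow_le_one₀ (abs_nonneg _) hp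
  have hmeas : MeasurableSet {p | 0 < g p} := measurableSet_lt measurable_const hg
  have key : ∀ (e : ℝ), |e| = 1 → ∀ B : Set Torus, MeasurableSet B → (∀ p, p ∉ B → e * g p ≤ 0) →
      ENNReal.ofReal (c / 2) ≤ volume B := by
    intro e he B hB hBe
    have h2 : ∫ p, (g p ^ 2 + e * g p) / 2 ≤ ∫ p, B.indicator (fun _ => (1:ℝ)) p := by
      refine integral_mono_ae (((hsi.add (hgi.const_mul e))).div_const 2)
        ((integrable_const (1:ℝ)).indicator hB) ?_
      filter_upwards [h1] with p hp
      have h3 : |e * g p| = |g p| := by rw [abs_mul, he, one_mul]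
      have h4 : g p ^ 2 ≤ |g p| := by
        rw [← sq_abs]
        nlinarith [abs_nonneg (g p)]
      by_cases hpB : p ∈ B
      · rw [Set.indicator_of_mem hpB]
        have h5 := le_abs_self (e * g p)
        rw [h3] at h5
        linarith
      · rw [Set.indicator_of_notMem hpB]
        have h5 := hBe p hpB
        have h6 : |g p| = -(e * g p) := by rw [← h3, abs_of_nonpos h5]
        linarith
    rw [integral_indicator hB, setIntegral_const, smul_eq_mul, mul_one] at h2
    rw [integral_div, integral_add hsi (hgi.const_mul e), integral_const_mul, h0, mul_zero,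
      add_zero] at h2
    have h3 : c / 2 ≤ volume.real B := by linarith
    rw [ENNReal.ofReal_le_iff_le_toReal (measure_ne_top _ _)]
    exact h3
  constructor
  · refine key 1 (by norm_num) _ hmeas ?_
    intro p hp
    simp only [Set.mem_setOf_eq, not_lt] at hp
    linarith
  · refine key (-1) (by norm_num) _ hmeas.compl ?_
    intro p hp
    simp only [Set.mem_compl_iff, Set.mem_setOf_eq, not_lt, not_le] at hp
    linarith

/-- **Products and eigenfunctions of the standard map, for every parameter `|a| ≥ 256`.** -/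
theorem result (a : ℝ) (ha : 256 ≤ |a|) (T : Torus → Torus) (hT : IsStandardMap a T) :
    -- (1) the alternative for the fibres
    (∀ (Y : Type) (R : Y → Y) (A : Set (Torus × Y)), ProductInvariant T R A →
      ∀ (y : Y) (n m : ℕ), 1 ≤ n → 1 ≤ m →
        min (volume (fib A y)) (volume (fib A y)ᶜ) ≤
          ENNReal.ofReal (err a n) + thick a n (fib A y) ∨
        1 ≤ ENNReal.ofReal (err a m) + thick a m (fib A (R^[n + m] y))) ∧
    -- (2) the length of the boundary of the fibres
    (∀ (Y : Type) [MeasurableSpace Y] (ν : Measure Y) [IsProbabilityMeasure ν] (R : Y → Y)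
      (A : Set (Torus × Y)), MeasurePreserving R ν ν → ProductInvariant T R A → ∀ η : ℝ,
        ν {y | ENNReal.ofReal η ≤ volume (fib A y) ∧ ENNReal.ofReal η ≤ volume (fib A y)ᶜ} ≤
          2 * ν {y | ENNReal.ofReal (|a| ^ ((η * |a| - 5 * √|a|) / 12)) ≤
            1 + 2 * len (fib A y)}) ∧
    -- (3) eigenfunctions
    (∃ N : ℕ, ∀ (f : Torus → ℂ) (l : ℂ), Measurable f → (∀ᵐ p, ‖f p‖ = 1) → ‖l‖ = 1 → l ≠ 1 →
      (∀ p, f (T p) = l * f p) → ∀ z : ℂ, ‖z‖ = 1 →
        ∃ w : ℂ, (w = z ∨ w = Complex.I * z ∨ w = (l ^ N)⁻¹ * z ∨ w = Complex.I * ((l ^ N)⁻¹ * z)) ∧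
          ENNReal.ofReal (|a| ^ ((|a| / 4 - 5 * √|a|) / 12)) ≤
            1 + 2 * len {p | 0 < (w * f p).re}) := by
  have hTS : T = TH705.SM.S a := TH705.SM.eq_S a T hT
  have hM := sqrt_ge ha
  have haM : |a| = √|a| ^ 2 := (Real.sq_sqrt (abs_nonneg a)).symm
  rw [hTS]
  have hth : ∀ (n : ℕ) (F : Set Torus),
      volume (Y332.SM.hnbd ((1 / √√|a|) ^ (n + 1) / 5) F) ≤ volume (Metric.cthickening (scale a n) F) ∧
      volume (Y332.SM.hnbd ((1 / √√|a|) ^ (n + 1) / 5) (Prod.swap ⁻¹' F)) ≤
        volume (Metric.cthickening (scale a n) F) := by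
    intro n F
    have h := Y332.SM.vol_hnbd_thick ((1 / √√|a|) ^ (n + 1) / 5) F
    have h2 : volume (Metric.cthickening ((1 / √√|a|) ^ (n + 1) / 5) F) ≤
        volume (Metric.cthickening (scale a n) F) :=
      measure_mono (Metric.cthickening_mono (scale_ge ha n) _)
    exact ⟨h.1.trans h2, h.2.trans h2⟩
  have her : ∀ n : ℕ, ENNReal.ofReal (3 * n / |a| + 3.71 / √|a|) ≤ ENNReal.ofReal (err a n) :=
    fun n => ENNReal.ofReal_le_ofReal (err_ge ha n)
  refine ⟨?_, ?_, ?_⟩
  · intro Y R A hA y n m hn hm
    rw [fib_iter hA]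
    rcases Q183.SMG.alternative hM haM hn hm (fib A y) with h | h
    · exact Or.inl (h.trans (add_le_add (her n) (hth n _).1))
    · exact Or.inr (h.trans (add_le_add (her m) (hth m _).2))
  · intro Y _ ν _ R A hR hA η
    set N : ℕ := Q183.SMG.tm a (√|a|) η + Q183.SMG.tm a (√|a|) η with hN
    set H : Set Y := {y | ENNReal.ofReal (|a| ^ ((η * |a| - 5 * √|a|) / 12)) ≤
            1 + 2 * len (fib A y)} with hH
    have h1 : {y | ENNReal.ofReal η ≤ volume (fib A y) ∧ ENNReal.ofReal η ≤ volume (fib A y)ᶜ} ⊆
        H ∪ R^[N] ⁻¹' H := by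
      rintro y ⟨hy1, hy2⟩
      have h2 := Q183.SMG.two_times hM haM hy1 hy2
      rw [← hN, ← fib_iter hA] at h2
      rcases le_total (Measure.hausdorffMeasure 1 (frontier (fib A y)))
        (Measure.hausdorffMeasure 1 (frontier (fib A (R^[N] y)))) with h3 | h3
      · rw [max_eq_right h3] at h2
        exact Or.inr h2
      · rw [max_eq_left h3] at h2
        exact Or.inl h2
    have h2 : ν (R^[N] ⁻¹' H) ≤ ν H := by
      have h3 : ν (R^[N] ⁻¹' H) ≤ ν (R^[N] ⁻¹' (toMeasurable ν H)) :=
        measure_mono (Set.preimage_mono (subset_toMeasurable _ _))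
      rw [(hR.iterate N).measure_preimage (measurableSet_toMeasurable _ _).nullMeasurableSet,
        measure_toMeasurable] at h3
      exact h3
    refine (measure_mono h1).trans ((measure_union_le _ _).trans ?_)
    rw [two_mul]
    exact add_le_add_right h2 _
  · set N : ℕ := Q183.SMG.tm a (√|a|) (1 / 4) + Q183.SMG.tm a (√|a|) (1 / 4) with hN
    refine ⟨N, ?_⟩
    intro f l hf hf1 hl hl1 hfl z hz
    have hfi : Integrable f := by
      refine Integrable.mono' (integrable_const (1:ℝ)) hf.aestronglyMeasurable ?_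
      filter_upwards [hf1] with p hp
      exact hp.le
    have h0 : ∫ p, f p = 0 := by
      have hSmp : MeasurePreserving (TH705.SM.S a) (volume : Measure Torus) volume :=
        TH705.SM.S_mp a
      have h1 : ∫ p, f (TH705.SM.S a p) = ∫ p, f p := by
        have h2 := integral_map (μ := (volume : Measure Torus)) (φ := TH705.SM.S a) hSmp.measurable.aemeasurable
          (f := f) hf.aestronglyMeasurable
        rw [hSmp.map_eq] at h2
        exact h2.symm
      have h2 : ∫ p, f (TH705.SM.S a p) = l * ∫ p, f p := by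
        rw [← integral_const_mul]
        exact integral_congr_ae (Filter.Eventually.of_forall hfl)
      rw [h1] at h2
      have h3 : (1 - l) * ∫ p, f p = 0 := by
        rw [sub_mul, one_mul, ← h2, sub_self]
      rcases mul_eq_zero.1 h3 with h4 | h4
      · exact absurd (sub_eq_zero.1 h4).symm hl1
      · exact h4
    -- one of the two directions is balanced
    have hre : ∀ w : ℂ, ∫ p, (w * f p).re = 0 := by
      intro w
      have h1 : ∫ p, w * f p = 0 := by rw [integral_const_mul, h0, mul_zero]
      have h2 : ∫ p, (w * f p).re = (∫ p, w * f p).re := integral_re (hfi.const_mul w)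
      rw [h2, h1]
      rfl
    have hsum : (1:ℝ) = ∫ p, ((z * f p).re ^ 2 + (Complex.I * z * f p).re ^ 2) := by
      have h1 : ∀ᵐ p, (z * f p).re ^ 2 + (Complex.I * z * f p).re ^ 2 = 1 := by
        filter_upwards [hf1] with p hp
        have h2 : (Complex.I * z * f p).re = -(z * f p).im := by
          rw [mul_assoc]
          simp
        rw [h2]
        have h3 : ‖z * f p‖ ^ 2 = 1 := by rw [norm_mul, hz, hp]; norm_num
        rw [← Complex.normSq_eq_norm_sq, Complex.normSq_apply] at h3
        linarith [h3, sq ((z * f p).re), sq ((z * f p).im), neg_sq ((z * f p).im)]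
      rw [integral_congr_ae h1]
      simp
    have hmz : ∀ w : ℂ, Measurable (fun p => (w * f p).re) := fun w =>
      Complex.measurable_re.comp (hf.const_mul w)
    have hb1 : ∀ w : ℂ, ‖w‖ = 1 → ∀ᵐ p, |(w * f p).re| ≤ 1 := by
      intro w hw
      filter_upwards [hf1] with p hp
      refine (Complex.abs_re_le_norm _).trans ?_
      rw [norm_mul, hw, hp]
      norm_num
    have hIz : ‖Complex.I * z‖ = 1 := by rw [norm_mul, hz, Complex.norm_I]; norm_num
    have hint : ∀ w : ℂ, ‖w‖ = 1 → Integrable (fun p => (w * f p).re ^ 2) := by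
      intro w hw
      refine Integrable.mono' (integrable_const (1:ℝ)) ((hmz w).pow_const 2).aestronglyMeasurable ?_
      filter_upwards [hb1 w hw] with p hp
      rw [Real.norm_eq_abs, abs_pow]
      exact pow_le_one₀ (abs_nonneg _) hp
    rw [integral_add (hint z hz) (hint _ hIz)] at hsum
    -- the image of a half
    have hl0 : l ≠ 0 := by
      intro h
      rw [h, norm_zero] at hl
      exact zero_ne_one hl
    have himg : ∀ w : ℂ, (TH705.SM.S a)^[N] '' {p | 0 < (w * f p).re} =
        {p | 0 < (((l ^ N)⁻¹ * w) * f p).re} := by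
      intro w
      have hk : ∀ k p, f ((TH705.SM.S a)^[k] p) = l ^ k * f p := by
        intro k
        induction k with
        | zero => intro p; simp
        | succ k ih =>
          intro p
          rw [Function.iterate_succ_apply', hfl, ih, pow_succ]
          ring
      have hsurj : Function.Surjective ((TH705.SM.S a)^[N]) := by
        have hl : Function.RightInverse (TH705.SM.Si a) (TH705.SM.S a) := Y332.SM.S_Si a
        exact hl.surjective.iterate N
      have he : ∀ p, ((l ^ N)⁻¹ * w) * f ((TH705.SM.S a)^[N] p) = w * f p := by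
        intro p
        rw [hk]
        have : l ^ N ≠ 0 := pow_ne_zero _ hl0
        field_simp
      ext q
      constructor
      · rintro ⟨p, hp, rfl⟩
        simp only [Set.mem_setOf_eq] at hp ⊢
        rw [he]
        exact hp
      · intro hq
        obtain ⟨p, rfl⟩ := hsurj q
        refine ⟨p, ?_, rfl⟩
        simp only [Set.mem_setOf_eq] at hq ⊢
        rw [he] at hq
        exact hq
    have hfin : ∀ w : ℂ, ‖w‖ = 1 → 1 / 2 ≤ ∫ p, (w * f p).re ^ 2 →
        ENNReal.ofReal (|a| ^ ((|a| / 4 - 5 * √|a|) / 12)) ≤ 1 + 2 * len {p | 0 < (w * f p).re} ∨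
        ENNReal.ofReal (|a| ^ ((|a| / 4 - 5 * √|a|) / 12)) ≤
          1 + 2 * len {p | 0 < (((l ^ N)⁻¹ * w) * f p).re} := by
      intro w hw hwi
      obtain ⟨h1, h2⟩ := halves (hmz w) (hb1 w hw) (hre w) hwi
      have e1 : (1:ℝ) / 2 / 2 = 1 / 4 := by norm_num
      rw [e1] at h1 h2
      have h3 := Q183.SMG.two_times hM haM h1 h2
      rw [← hN, himg] at h3
      have e2 : (1 / 4 * |a| - 5 * √|a|) / 12 = (|a| / 4 - 5 * √|a|) / 12 := by ring
      rw [e2] at h3
      rcases le_total (Measure.hausdorffMeasure 1 (frontier {p | 0 < (w * f p).re}))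
        (Measure.hausdorffMeasure 1 (frontier {p | 0 < (((l ^ N)⁻¹ * w) * f p).re})) with h4 | h4
      · rw [max_eq_right h4] at h3
        exact Or.inr h3
      · rw [max_eq_left h4] at h3
        exact Or.inl h3
    by_cases hcase : 1 / 2 ≤ ∫ p, (z * f p).re ^ 2
    · rcases hfin z hz hcase with h | h
      · exact ⟨z, Or.inl rfl, h⟩
      · exact ⟨_, Or.inr (Or.inr (Or.inl rfl)), h⟩
    · have hcase2 : 1 / 2 ≤ ∫ p, (Complex.I * z * f p).re ^ 2 := by linarith
      rcases hfin _ hIz hcase2 with h | h
      · exact ⟨_, Or.inr (Or.inl rfl), h⟩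
      · refine ⟨Complex.I * ((l ^ N)⁻¹ * z), Or.inr (Or.inr (Or.inr rfl)), ?_⟩
        have e3 : Complex.I * ((l ^ N)⁻¹ * z) = (l ^ N)⁻¹ * (Complex.I * z) := by ring
        rw [e3]
        exact h

end Pool.Agent.Results.MP_9ee088_an.ProductsAndEigenfunctions
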